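import Pool.Agent.Lib.MP_bf61d2_nt.Artin.R.DefsR

set_option autoImplicit false

/-!
HECKE: edge repulsion for all twists by unitary Hecke characters (MP_bf61d2_nt): definitions.
-/

namespace Pool.Agent.Lib.MP_bf61d2_nt.Artin.Ray

open NumberField NumberField.mixedEmbedding IsDedekindDomain
open Pool.Agent.Lib.MP_bf61d2_nt.Zeta
open scoped Classical

variable {K : Type*} [Field K] [NumberField K]

/-- The exponents at the complex places. -/
abbrev TA (K : Type*) [Field K] := {w : InfinitePlace K // w.IsComplex} → ℤ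

/-- The exponents at all the infinite places. -/
abbrev TB (K : Type*) [Field K] := InfinitePlace K → ℝ

/-- The character of infinity type `(a, b)` on the mixed space. -/
noncomputable def lamX (a : TA K) (b : TB K) (x : mixedSpace K) : ℂ :=
  (∏ w : {w : InfinitePlace K // w.IsComplex}, (x.2 w / (‖x.2 w‖ : ℂ)) ^ (a w)) *
    Complex.exp (((∑ w : InfinitePlace K, b w * Real.log (normAtPlace w x) : ℝ) : ℂ) * Complex.I)

/-- The size of an infinity type. -/
noncomputable def sz (a : TA K) (b : TB K) : ℝ :=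
  1 + ∑ w : {w : InfinitePlace K // w.IsComplex}, |(a w : ℝ)| + ∑ w : InfinitePlace K, |b w|

/-- A unitary Hecke character modulo `𝔪`, of infinity type `(a, b)`, trivial on the positive real
numbers. -/
def IsHe (𝔪 : Ideal (𝓞 K)) (a : TA K) (b : TB K) (ψ : Ideal (𝓞 K) →*₀ ℂ) : Prop :=
  ∑ w, b w = 0 ∧
  (∀ γ : 𝓞 K, γ ≠ 0 → γ - 1 ∈ 𝔪 → (∀ φ : K →+* ℝ, 0 < φ γ) →
    ψ (Ideal.span {γ}) = lamX a b (mixedEmbedding K (γ : K))) ∧
  ∀ v : HeightOneSpectrum (𝓞 K), ψ v.asIdeal = 0 ↔ 𝔪 ≤ v.asIdeal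

/-- A unitary Hecke character of modulus `𝔪` and size at most `Z`. -/
def IsHk (𝔪 : Ideal (𝓞 K)) (Z : ℕ) (ψ : Ideal (𝓞 K) →*₀ ℂ) : Prop :=
  𝔪 ≠ ⊥ ∧ ∃ (a : TA K) (b : TB K), IsHe 𝔪 a b ψ ∧ (Ideal.absNorm 𝔪 : ℝ) * sz a b ≤ Z

/-- The cut off function with the character of type `(a, b)`. -/
noncomputable def hT (a : TA K) (b : TB K) (σ : SG K) (s : ℂ) (x : mixedSpace K) : ℂ :=
  lamX a b x * hS σ s x

end Pool.Agent.Lib.MP_bf61d2_nt.Artin.Ray
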