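import Pool.Agent.Lib.MP_bf61d2_nt.Artin.H.DefsH
import Pool.Agent.Lib.MP_bf61d2_nt.Artin.R.StmtsR

set_option autoImplicit false

/-!
HECKE: edge repulsion for all twists by unitary Hecke characters (MP_bf61d2_nt): the statements of
the modules, as propositions.
-/

namespace Pool.Agent.Lib.MP_bf61d2_nt.Artin.Ray

open NumberField NumberField.mixedEmbedding NumberField.Units NumberField.InfinitePlace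
open IsDedekindDomain Module
open Pool.Agent.Lib.MP_bf61d2_nt.Zeta
open scoped Classical nonZeroDivisors

universe u

variable (K : Type u) [Field K] [NumberField K]

/-- BASH -/
def StBASH : Prop := ∀ (𝔪 : Ideal (𝓞 K)), 𝔪 ≠ ⊥ → ∀ (a : TA K) (b : TB K)
  (ψ : Ideal (𝓞 K) →*₀ ℂ), IsHe 𝔪 a b ψ →
  (∀ I, ‖ψ I‖ ≤ 1) ∧ ∀ v : HeightOneSpectrum (𝓞 K), ¬ 𝔪 ≤ v.asIdeal → ‖ψ v.asIdeal‖ = 1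

/-- INVH -/
def StINVH : Prop := ∀ (𝔪 : Ideal (𝓞 K)), 𝔪 ≠ ⊥ → ∀ (a : TA K) (b : TB K)
  (ψ : Ideal (𝓞 K) →*₀ ℂ), IsHe 𝔪 a b ψ →
  ∀ (J I I' : Ideal (𝓞 K)) (α β : 𝓞 K), α ≠ 0 → β ≠ 0 → α - β ∈ 𝔪 * J →
  (∀ φ : K →+* ℝ, 0 < φ α ↔ 0 < φ β) → Ideal.span {α} = J * I → Ideal.span {β} = J * I' →
  ψ I * lamX a b (mixedEmbedding K (β : K)) = ψ I' * lamX a b (mixedEmbedding K (α : K))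

/-- PERH: periodic weights. -/
def StPERH : Prop := ∀ (𝔪 : Ideal (𝓞 K)), 𝔪 ≠ ⊥ → ∀ (α' : TA K) (β' : TB K)
  (ψ : Ideal (𝓞 K) →*₀ ℂ), IsHe 𝔪 α' β' ψ →
  ∀ (J : (Ideal (𝓞 K))⁰) (ι : Type u) [Fintype ι] (b : Basis ι ℝ (mixedSpace K)),
  IsBasisOf J b → ∃ P : SG K → (ι → ℤ) → ℂ, (∀ σ a, ‖P σ a‖ ≤ 1) ∧
    (∀ σ a T, (∃ τ ∈ 𝔪 * (J : Ideal (𝓞 K)), mixedEmbedding K (τ : K) = pt b T) →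
      P σ (a + T) = P σ a) ∧
    ∀ (a : ι → ℤ) (α : 𝓞 K) (I : Ideal (𝓞 K)), α ≠ 0 → mixedEmbedding K (α : K) = pt b a →
      Ideal.span {α} = (J : Ideal (𝓞 K)) * I → P (sgn (pt b a)) a * lamX α' β' (pt b a) = ψ I

/-- LIPH: the Lipschitz estimate, uniform in the infinity type. -/
def StLIPH : Prop := ∀ c σ₀ : ℝ, 0 < c → 0 < σ₀ → ∃ C₁ C₂ : ℝ, 0 < C₁ ∧ 0 < C₂ ∧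
  ∀ R : ℝ, 1 ≤ R → ∀ x y : mixedSpace K, mixedEmbedding.norm x ≠ 0 → mixedEmbedding.norm y ≠ 0 →
    ‖x - y‖ ≤ c → C₂ * R ≤ ‖x‖ → ∀ (a : TA K) (b : TB K) (σ : SG K) (s : ℂ), σ₀ ≤ s.re →
      sz a b * (1 + ‖s‖) ≤ R →
      ‖hT a b σ s y - hT a b σ s x‖ ≤ C₁ * R * ‖x‖ ^ (-(finrank ℚ K * σ₀ + 1))

/-- LATH: the lattice sums with periodic weights. -/
def StLATH : Prop := ∀ (ι : Type u) [Fintype ι] (b : Basis ι ℝ (mixedSpace K)),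
  Fintype.card ι = finrank ℚ K →
  (∀ a : ι → ℤ, a ≠ 0 → 1 ≤ mixedEmbedding.norm (pt b a)) →
  ∃ A : ℝ, 0 < A ∧ ∀ (α' : TA K) (β' : TB K), ∑ w, β' w = 0 → ∀ (m : ℕ) [NeZero m]
    (P : SG K → (ι → ℤ) → ℂ), (∀ σ a, ‖P σ a‖ ≤ 1) →
    (∀ σ (a y : ι → ℤ), P σ (a + fun i => y i * m) = P σ a) →
    ∃ H : ℂ → ℂ, DifferentiableOn ℂ H {s | ZB69.sg K < s.re} ∧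
      (∀ s : ℂ, 1 < s.re → H s = (s - 1) *
        ∑' a : ι → ℤ, P (sgn (pt b a)) a * lamX α' β' (pt b a) * hh s (pt b a)) ∧
      ∀ s : ℂ, (1 + ZB69.sg K) / 2 ≤ s.re → s.re ≤ 2 →
        ‖H s‖ ≤ A * (m : ℝ) ^ finrank ℚ K * (sz α' β' * (1 + |s.im|)) ^ (finrank ℚ K + 2)

/-- SHIFTH: shifts of the lattice sums. -/
def StSHIFTH : Prop := ∀ (ι : Type u) [Fintype ι] (b : Basis ι ℝ (mixedSpace K)),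
  (∀ a : ι → ℤ, a ≠ 0 → 1 ≤ mixedEmbedding.norm (pt b a)) →
  ∀ (T : ι → ℤ) (α' : TA K) (β' : TB K), ∃ B : ℝ, ∀ (g : (ι → ℤ) → ℂ), (∀ a, ‖g a‖ ≤ 1) →
    ∀ (σ : SG K) (x : ℝ), 0 < x → x ≤ 1 →
      ‖∑' a : ι → ℤ, g a * (hT α' β' σ ((1 + x : ℝ) : ℂ) (pt b (a + T)) -
        hT α' β' σ ((1 + x : ℝ) : ℂ) (pt b a))‖ ≤ B

/-- GROWH -/
def StGROWH : Prop := ∃ (η A : ℝ) (k : ℕ), 0 < η ∧ η < 1 ∧ 1 ≤ A ∧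
  ∀ (𝔪 : Ideal (𝓞 K)), 𝔪 ≠ ⊥ → ∀ (a : TA K) (b : TB K) (ψ : Ideal (𝓞 K) →*₀ ℂ), IsHe 𝔪 a b ψ →
    ∃ H : ℂ → ℂ, DifferentiableOn ℂ H {s | 1 - η < s.re} ∧
    (∀ s : ℂ, 1 < s.re → H s = (s - 1) * LI (ψ : Ideal (𝓞 K) → ℂ) s) ∧
    ∀ s : ℂ, 1 - η < s.re → s.re ≤ 2 →
      ‖H s‖ ≤ A * (Ideal.absNorm 𝔪 * (sz a b * (1 + |s.im|))) ^ k

/-- LBH -/
def StLBH : Prop := ∃ C : ℝ, 0 < C ∧ ∀ (𝔪 : Ideal (𝓞 K)) (Z : ℕ) (ψ : Ideal (𝓞 K) →*₀ ℂ),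
  IsHk 𝔪 Z ψ → ∀ x u : ℝ, 0 < x → x ≤ 1 → (1 ≤ |u| ∨ BD ψ) →
    ‖LI (ψ : Ideal (𝓞 K) → ℂ) ((1 + x : ℝ) + u * Complex.I)‖ ≤
      C * Real.log (Z * (|u| + 20)) ∧
    ‖deriv (LI (ψ : Ideal (𝓞 K) → ℂ)) ((1 + x : ℝ) + u * Complex.I)‖ ≤
      C * Real.log (Z * (|u| + 20)) ^ 2

/-- RESH: the dichotomy. -/
def StRESH : Prop := ∀ (𝔪 : Ideal (𝓞 K)) (Z : ℕ) (ψ : Ideal (𝓞 K) →*₀ ℂ), IsHk 𝔪 Z ψ →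
  TR 𝔪 ψ ∨ BD ψ

/-- FINH -/
def StFINH : Prop := ∀ (𝔪 : Ideal (𝓞 K)) (Z : ℕ) (ψ : Ideal (𝓞 K) →*₀ ℂ), IsHk 𝔪 Z ψ →
  {v : HeightOneSpectrum (𝓞 K) | ¬ 𝔪 ≤ v.asIdeal ∧ ψ v.asIdeal ≠ 1}.Finite → TR 𝔪 ψ

/-- CLRH: large height. -/
def StCLRH : Prop := ∃ A : ℝ, 0 ≤ A ∧ ∀ (𝔪 : Ideal (𝓞 K)) (Z : ℕ) (ψ : Ideal (𝓞 K) →*₀ ℂ),
  IsHk 𝔪 Z ψ → ∀ x u : ℝ, 0 < x → x ≤ 1 → 1 ≤ |u| → ‖PSI ψ x u‖ ≤ A * lm Z u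

/-- CSXRH: no pole for `ψ` and `ψ * ψ`. -/
def StCSXRH : Prop := ∃ A : ℝ, 0 ≤ A ∧ ∀ (𝔪 : Ideal (𝓞 K)) (Z : ℕ) (ψ : Ideal (𝓞 K) →*₀ ℂ),
  IsHk 𝔪 Z ψ → BD ψ → BD (ψ * ψ) → ∀ x u : ℝ, 0 < x → x ≤ 1 → ‖PSI ψ x u‖ ≤ A * lm Z u

/-- PN1RH: a trivial character. -/
def StPN1RH : Prop := ∃ A : ℝ, 0 ≤ A ∧ ∀ (𝔪 : Ideal (𝓞 K)) (Z : ℕ) (ψ : Ideal (𝓞 K) →*₀ ℂ),
  IsHk 𝔪 Z ψ → TR 𝔪 ψ → ∀ x u : ℝ, 0 < x → x ≤ 1 →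
    ‖PSI ψ x u - SC (K := K) (1 + x) (fun v => ph u (nm v))‖ ≤ A * lm Z 0

/-- CSRRH: a quadratic character without pole, near the real axis. -/
def StCSRRH : Prop := ∃ A : ℝ, 0 ≤ A ∧ ∀ (𝔪 : Ideal (𝓞 K)) (Z : ℕ) (ψ : Ideal (𝓞 K) →*₀ ℂ),
  IsHk 𝔪 Z ψ → TR 𝔪 (ψ * ψ) → BD ψ → ∀ x u : ℝ, 0 < x → x ≤ 1 →
    0 < |u| → |u| ≤ 1 → ‖PSI ψ x u‖ ≤ A * (lm Z 0 + Real.log (1 / |u|))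

/-- FARRH: away from the real axis. -/
def StFARRH : Prop := ∃ A : ℝ, 0 ≤ A ∧ ∀ (𝔪 : Ideal (𝓞 K)) (Z : ℕ) (ψ : Ideal (𝓞 K) →*₀ ℂ),
  IsHk 𝔪 Z ψ → ∀ Q : ℝ, 20 ≤ Q → (Z : ℝ) ≤ Q ^ 2 →
  ∀ x u : ℝ, 0 < x → x ≤ 1 → 1 / (2 * Real.log Q) ≤ |u| → |u| ≤ 2 * Q →
    ‖PSI ψ x u‖ ≤ A * lq Q

/-- PAGERH: at most one exceptional class, of a quadratic character. -/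
def StPAGERH : Prop := ∃ A : ℝ, 0 ≤ A ∧ ∀ Q : ℝ, 20 ≤ Q → ∃ (𝔪₁ : Ideal (𝓞 K)) (Z₁ : ℕ)
  (ψ₁ : Ideal (𝓞 K) →*₀ ℂ), IsHk 𝔪₁ Z₁ ψ₁ ∧ (Z₁ : ℝ) ≤ Q ^ 2 ∧ TR 𝔪₁ (ψ₁ * ψ₁) ∧
  ∀ (𝔪 : Ideal (𝓞 K)) (Z : ℕ) (ψ : Ideal (𝓞 K) →*₀ ℂ), IsHk 𝔪 Z ψ → (Z : ℝ) ≤ Q ^ 2 →
    ¬ TR 𝔪 ψ → ¬ TR (𝔪₁ * 𝔪) (ψ₁ * ψ) →
    ∀ x u : ℝ, 0 < x → x ≤ 1 → |u| ≤ 2 * Q → ‖PSI ψ x u‖ ≤ A * lq Q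

/-- BESRH: the inequality of Bessel. -/
def StBESRH : Prop := ∃ C : ℝ, 0 ≤ C ∧ ∀ Q : ℝ, 20 ≤ Q → ∃ (𝔪₁ : Ideal (𝓞 K)) (Z₁ : ℕ)
  (ψ₁ : Ideal (𝓞 K) →*₀ ℂ), IsHk 𝔪₁ Z₁ ψ₁ ∧ (Z₁ : ℝ) ≤ Q ^ 2 ∧ TR 𝔪₁ (ψ₁ * ψ₁) ∧
  ∀ (c : HeightOneSpectrum (𝓞 K) → ℝ), (∀ v, |c v| ≤ 2) →
  ∀ δ : ℝ, 0 < δ → δ ≤ 1 / 2 → ∀ (n : ℕ) (𝔪 : Fin n → Ideal (𝓞 K)) (Z : Fin n → ℕ)
    (ψ : Fin n → (Ideal (𝓞 K) →*₀ ℂ)) (t : Fin n → ℝ),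
    (∀ i, IsHk (𝔪 i) (Z i) (ψ i) ∧ (Z i : ℝ) ≤ Q ∧ |t i| ≤ Q) →
    (∀ i j, i ≠ j → TR (𝔪 i * 𝔪 j) (ψ i * cj (ψ j)) → 1 / Real.log Q ≤ |t i - t j|) →
    ∑ i, ‖CR c (fun v => ψ i v.asIdeal) δ (t i)‖ ^ 2 ≤
      8 * Real.log (1 / δ) ^ 2 + C * n * lq Q * Real.log (1 / δ) ∧
    ((∀ i j, TR (𝔪₁ * (𝔪 i * 𝔪 j)) (ψ₁ * (ψ i * cj (ψ j))) →
        TR (𝔪 i * 𝔪 j) (ψ i * cj (ψ j))) →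
      ∑ i, ‖CR c (fun v => ψ i v.asIdeal) δ (t i)‖ ^ 2 ≤
        4 * Real.log (1 / δ) ^ 2 + C * n * lq Q * Real.log (1 / δ))

end Pool.Agent.Lib.MP_bf61d2_nt.Artin.Ray
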